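import Mathlib

/-! # Simultaneous approximation along a line (Kronecker), proof after Bohr -/

open Finset Complex MeasureTheory intervalIntegral
open scoped BigOperators Real

noncomputable section

namespace Pool.Agent.DilSurf

variable {ι : Type*} [Fintype ι]

/-- extension of a vector by `0` at `none`. -/
def ext0 (h : ι → ℝ) : Option ι → ℝ := fun o => o.elim 0 h

/-- number of occurrences of `i`. -/
def occ [DecidableEq ι] {N : ℕ} (f : Fin N → Option ι) (i : ι) : ℕ :=
  (univ.filter (fun l => f l = some i)).card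

theorem sum_ext0 [DecidableEq ι] {N : ℕ} (h : ι → ℝ) (f : Fin N → Option ι) :
    ∑ l, ext0 h (f l) = ∑ i, (occ f i : ℝ) * h i := by
  have h1 : ∀ l, ext0 h (f l) = ∑ i, if f l = some i then h i else 0 := by
    intro l
    rcases hfl : f l with _ | j
    · simp [ext0]
    · simp [ext0]
  simp_rw [h1]
  rw [Finset.sum_comm]
  refine Finset.sum_congr rfl fun i _ => ?_
  rw [← Finset.sum_filter, Finset.sum_const, occ, nsmul_eq_mul]

/-- no non-trivial integer relation with coefficients of size at most `N`. -/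
def NoRelation (h : ι → ℝ) (N : ℕ) : Prop :=
  ∀ n : ι → ℤ, (∀ i, |n i| ≤ (N : ℤ)) → ∑ i, (n i : ℝ) * h i = 0 → n = 0

omit [Fintype ι] in
theorem occ_le [DecidableEq ι] {N : ℕ} (f : Fin N → Option ι) (i : ι) : occ f i ≤ N := by
  unfold occ
  exact (Finset.card_le_univ _).trans (by simp)

theorem occ_eq_of_sum_eq [DecidableEq ι] {N : ℕ} {h : ι → ℝ} (hind : NoRelation h N)
    {f g : Fin N → Option ι} (hfg : ∑ l, ext0 h (f l) = ∑ l, ext0 h (g l)) : occ f = occ g := by
  rw [sum_ext0, sum_ext0] at hfg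
  have h1 := hind (fun i => (occ f i : ℤ) - (occ g i : ℤ)) (fun i => by
    have h1 := occ_le f i
    have h2 := occ_le g i
    rw [abs_le]
    constructor <;> omega) (by
    push_cast
    simp only [sub_mul]
    rw [Finset.sum_sub_distrib, hfg, sub_self])
  funext i
  have h2 := congrFun h1 i
  simp only [Pi.zero_apply] at h2
  omega

theorem norm_one_add_exp_le {x ε : ℝ} (hε : 0 < ε) (hε2 : ε ≤ 1 / 2)
    (hx : ∀ n : ℤ, ε ≤ |x - n|) :
    ‖(1 : ℂ) + cexp (2 * π * x * Complex.I)‖ ≤ √(2 + 2 * Real.cos (2 * π * ε)) := by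
  apply Real.le_sqrt_of_sq_le
  have h1 : cexp (2 * π * x * Complex.I) = (Real.cos (2 * π * x) : ℂ) + Real.sin (2 * π * x) * Complex.I := by
    rw [show (2 * π * x * Complex.I : ℂ) = ((2 * π * x : ℝ) : ℂ) * Complex.I by push_cast; ring]
    rw [Complex.exp_mul_I, Complex.ofReal_cos, Complex.ofReal_sin]
  have h2 : ‖(1 : ℂ) + cexp (2 * π * x * Complex.I)‖ ^ 2 = 2 + 2 * Real.cos (2 * π * x) := by
    rw [h1, ← Complex.normSq_eq_norm_sq, Complex.normSq_apply]
    simp only [Complex.add_re, Complex.one_re, Complex.ofReal_re, Complex.mul_re, Complex.I_re,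
      mul_zero, Complex.ofReal_im, Complex.I_im, Complex.add_im, Complex.one_im, Complex.mul_im]
    have := Real.sin_sq_add_cos_sq (2 * π * x)
    nlinarith
  rw [h2]
  have h3 : Real.cos (2 * π * x) = Real.cos (2 * π * |x - round x|) := by
    rw [show 2 * π * |x - round x| = |2 * π * (x - round x)| by
      rw [abs_mul, abs_of_pos (by positivity : (0:ℝ) < 2 * π)]]
    rw [Real.cos_abs]
    rw [show 2 * π * (x - round x) = 2 * π * x - (round x : ℤ) * (2 * π) by ring]
    rw [Real.cos_sub_int_mul_two_pi]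
  rw [h3]
  have h4 : Real.cos (2 * π * |x - round x|) ≤ Real.cos (2 * π * ε) := by
    apply Real.cos_le_cos_of_nonneg_of_le_pi
    · positivity
    · have := abs_sub_round x
      have hp := Real.pi_pos
      nlinarith
    · have := hx (round x)
      have hp := Real.pi_pos
      nlinarith
  linarith

/-- The exponential sum. -/
def FF (h δ : ι → ℝ) (t : ℝ) : ℂ :=
  ∑ o : Option ι, cexp (2 * π * ((ext0 h o * t - ext0 δ o : ℝ) : ℂ) * Complex.I)

theorem FF_pow (h δ : ι → ℝ) (t : ℝ) (N : ℕ) :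
    FF h δ t ^ N = ∑ f : Fin N → Option ι,
      cexp (2 * π * (((∑ l, ext0 h (f l)) * t - ∑ l, ext0 δ (f l) : ℝ) : ℂ) * Complex.I) := by
  unfold FF
  rw [Fintype.sum_pow]
  refine Finset.sum_congr rfl fun f _ => ?_
  rw [← Complex.exp_sum]
  congr 1
  push_cast
  rw [← Finset.sum_mul, ← Finset.mul_sum, Finset.sum_sub_distrib, Finset.sum_mul]

/-- integral of a character over `[0, T]`. -/
theorem integral_char (c d : ℝ) (hc : c ≠ 0) (T : ℝ) :
    ‖∫ t in (0:ℝ)..T, cexp (2 * π * ((c * t - d : ℝ) : ℂ) * Complex.I)‖ ≤ 2 / (2 * π * |c|) := by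
  have hC : (2 * π * c * Complex.I : ℂ) ≠ 0 := by
    simp [hc, Real.pi_ne_zero, Complex.I_ne_zero]
  have h1 : ∀ t : ℝ, cexp (2 * π * ((c * t - d : ℝ) : ℂ) * Complex.I) =
      cexp (-(2 * π * d * Complex.I)) * cexp ((2 * π * c * Complex.I) * t) := by
    intro t
    rw [← Complex.exp_add]
    congr 1
    push_cast
    ring
  simp_rw [h1]
  rw [intervalIntegral.integral_const_mul, integral_exp_mul_complex hC, norm_mul, norm_div]
  have h2 : ‖cexp (-(2 * π * d * Complex.I))‖ = 1 := by
    rw [show (-(2 * π * d * Complex.I) : ℂ) = ((-(2 * π * d) : ℝ) : ℂ) * Complex.I by push_cast; ring]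
    exact Complex.norm_exp_ofReal_mul_I _
  have h3 : ∀ s : ℝ, ‖cexp ((2 * π * c * Complex.I) * s)‖ = 1 := by
    intro s
    rw [show ((2 * π * c * Complex.I) * s : ℂ) = ((2 * π * c * s : ℝ) : ℂ) * Complex.I by
      push_cast; ring]
    exact Complex.norm_exp_ofReal_mul_I _
  have h4 : ‖cexp ((2 * π * c * Complex.I) * (T : ℝ)) - cexp ((2 * π * c * Complex.I) * (0 : ℝ))‖ ≤ 2 := by
    refine (norm_sub_le _ _).trans ?_
    rw [h3 T, h3 0]
    norm_num
  have h5 : ‖(2 * π * c * Complex.I : ℂ)‖ = 2 * π * |c| := by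
    simp [abs_of_pos Real.pi_pos]
  rw [h2, h5, one_mul]
  gcongr

/-- If `|F| ≤ q` everywhere then no class of words is larger than `q ^ N`. -/
theorem class_le [DecidableEq ι] {h δ : ι → ℝ} {q : ℝ}
    (hq : ∀ t, ‖FF h δ t‖ ≤ q) (N : ℕ) (hind : NoRelation h N) (f₀ : Fin N → Option ι) :
    ((univ.filter (fun f : Fin N → Option ι => occ f = occ f₀)).card : ℝ) ≤ q ^ N := by
  classical
  set S := univ.filter (fun f : Fin N → Option ι => occ f = occ f₀) with hS
  set Hf : (Fin N → Option ι) → ℝ := fun f => ∑ l, ext0 h (f l) with hHf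
  set Df : (Fin N → Option ι) → ℝ := fun f => ∑ l, ext0 δ (f l) with hDf
  -- the constant
  set C : ℝ := ∑ f ∈ univ.filter (fun f : Fin N → Option ι => ¬ occ f = occ f₀),
    2 / (2 * π * |Hf f - Hf f₀|) with hC
  have key : ∀ T : ℝ, 0 < T → T * (S.card : ℝ) ≤ T * q ^ N + C := by
    intro T hT
    have hexp : ∀ t : ℝ, FF h δ t ^ N * cexp (-(2 * π * ((Hf f₀ * t - Df f₀ : ℝ) : ℂ) * Complex.I)) =
        ∑ f : Fin N → Option ι, cexp (2 * π * (((Hf f - Hf f₀) * t - (Df f - Df f₀) : ℝ) : ℂ) * Complex.I) := by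
      intro t
      rw [FF_pow, Finset.sum_mul]
      refine Finset.sum_congr rfl fun f _ => ?_
      rw [← Complex.exp_add]
      congr 1
      simp only [hHf, hDf]
      push_cast
      ring
    have hint : ∫ t in (0:ℝ)..T, FF h δ t ^ N * cexp (-(2 * π * ((Hf f₀ * t - Df f₀ : ℝ) : ℂ) * Complex.I)) =
        ∑ f : Fin N → Option ι, ∫ t in (0:ℝ)..T,
          cexp (2 * π * (((Hf f - Hf f₀) * t - (Df f - Df f₀) : ℝ) : ℂ) * Complex.I) := by
      rw [← intervalIntegral.integral_finsetSum]
      · refine intervalIntegral.integral_congr fun t _ => ?_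
        exact hexp t
      · intro f _
        apply Continuous.intervalIntegrable
        fun_prop
    have hsplit := Finset.sum_filter_add_sum_filter_not (univ : Finset (Fin N → Option ι))
      (fun f => occ f = occ f₀) (fun f => ∫ t in (0:ℝ)..T,
          cexp (2 * π * (((Hf f - Hf f₀) * t - (Df f - Df f₀) : ℝ) : ℂ) * Complex.I))
    have hsame : ∑ f ∈ S, ∫ t in (0:ℝ)..T,
          cexp (2 * π * (((Hf f - Hf f₀) * t - (Df f - Df f₀) : ℝ) : ℂ) * Complex.I) = (S.card : ℂ) * T := by
      rw [Finset.sum_congr rfl (g := fun _ => (T : ℂ)), Finset.sum_const, nsmul_eq_mul]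
      intro f hf
      have hocc : occ f = occ f₀ := (Finset.mem_filter.1 hf).2
      have e1 : Hf f = Hf f₀ := by simp only [hHf, sum_ext0, hocc]
      have e2 : Df f = Df f₀ := by simp only [hDf, sum_ext0, hocc]
      simp [e1, e2]
    have hdiff : ‖∑ f ∈ univ.filter (fun f : Fin N → Option ι => ¬ occ f = occ f₀), ∫ t in (0:ℝ)..T,
          cexp (2 * π * (((Hf f - Hf f₀) * t - (Df f - Df f₀) : ℝ) : ℂ) * Complex.I)‖ ≤ C := by
      refine (norm_sum_le _ _).trans ?_
      rw [hC]
      refine Finset.sum_le_sum fun f hf => ?_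
      have hocc : ¬ occ f = occ f₀ := (Finset.mem_filter.1 hf).2
      refine integral_char _ _ ?_ T
      intro h0
      exact hocc (occ_eq_of_sum_eq hind (by simpa [hHf] using sub_eq_zero.1 h0))
    have hbound : ‖∫ t in (0:ℝ)..T, FF h δ t ^ N * cexp (-(2 * π * ((Hf f₀ * t - Df f₀ : ℝ) : ℂ) * Complex.I))‖
        ≤ q ^ N * |T - 0| := by
      apply intervalIntegral.norm_integral_le_of_norm_le_const
      intro t _
      rw [norm_mul, norm_pow]
      have : ‖cexp (-(2 * π * ((Hf f₀ * t - Df f₀ : ℝ) : ℂ) * Complex.I))‖ = 1 := by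
        rw [show (-(2 * π * ((Hf f₀ * t - Df f₀ : ℝ) : ℂ) * Complex.I) : ℂ) =
          ((-(2 * π * (Hf f₀ * t - Df f₀)) : ℝ) : ℂ) * Complex.I by push_cast; ring]
        exact Complex.norm_exp_ofReal_mul_I _
      rw [this, mul_one]
      exact pow_le_pow_left₀ (norm_nonneg _) (hq t) N
    rw [hint, ← hsplit, hsame] at hbound
    have h6 : ‖(S.card : ℂ) * T‖ = (S.card : ℝ) * T := by
      rw [norm_mul, Complex.norm_natCast, Complex.norm_real, Real.norm_of_nonneg hT.le]
    have h7 : ‖(S.card : ℂ) * T‖ ≤ q ^ N * |T - 0| + C := by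
      calc ‖(S.card : ℂ) * T‖ = ‖((S.card : ℂ) * T + ∑ f ∈ univ.filter (fun f : Fin N → Option ι => ¬ occ f = occ f₀), ∫ t in (0:ℝ)..T,
          cexp (2 * π * (((Hf f - Hf f₀) * t - (Df f - Df f₀) : ℝ) : ℂ) * Complex.I)) -
          ∑ f ∈ univ.filter (fun f : Fin N → Option ι => ¬ occ f = occ f₀), ∫ t in (0:ℝ)..T,
          cexp (2 * π * (((Hf f - Hf f₀) * t - (Df f - Df f₀) : ℝ) : ℂ) * Complex.I)‖ := by
            congr 1; ring
        _ ≤ _ := (norm_sub_le _ _).trans (add_le_add hbound hdiff)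
    rw [h6, sub_zero, abs_of_pos hT] at h7
    linarith
  by_contra hcon
  push Not at hcon
  have hC0 : 0 ≤ C := by
    rw [hC]
    refine Finset.sum_nonneg fun f _ => ?_
    positivity
  have hd : 0 < (S.card : ℝ) - q ^ N := by linarith
  have := key ((C + 1) / ((S.card : ℝ) - q ^ N)) (by positivity)
  have h8 : (C + 1) / ((S.card : ℝ) - q ^ N) * ((S.card : ℝ) - q ^ N) = C + 1 := by
    field_simp
  nlinarith

theorem card_pow_le [DecidableEq ι] {h δ : ι → ℝ} {q : ℝ}
    (hq : ∀ t, ‖FF h δ t‖ ≤ q) (N : ℕ) (hind : NoRelation h N) :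
    ((Fintype.card ι : ℝ) + 1) ^ N ≤ ((N : ℝ) + 1) ^ (Fintype.card ι) * q ^ N := by
  classical
  have hocc : ∀ (f : Fin N → Option ι) (i : ι), occ f i < N + 1 := fun f i =>
    Nat.lt_succ_of_le (occ_le f i)
  let φ : (Fin N → Option ι) → (ι → Fin (N + 1)) := fun f i => ⟨occ f i, hocc f i⟩
  by_contra hcon
  push Not at hcon
  have hpos : (0:ℝ) < ((N : ℝ) + 1) ^ (Fintype.card ι) := by positivity
  -- each class is small
  have hsmall : ∀ y : ι → Fin (N + 1), ((univ.filter (fun f => φ f = y)).card : ℝ) ≤ q ^ N := by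
    intro y
    rcases (univ.filter (fun f => φ f = y)).eq_empty_or_nonempty with he | ⟨f₀, hf₀⟩
    · rw [he]
      simp only [Finset.card_empty, Nat.cast_zero]
      exact pow_nonneg ((norm_nonneg _).trans (hq 0)) N
    · have hy : φ f₀ = y := (Finset.mem_filter.1 hf₀).2
      have : univ.filter (fun f => φ f = y) = univ.filter (fun f : Fin N → Option ι => occ f = occ f₀) := by
        ext f
        simp only [Finset.mem_filter, Finset.mem_univ, true_and]
        rw [← hy]
        constructor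
        · intro h1
          funext i
          have := congrFun h1 i
          simpa [φ] using this
        · intro h1
          funext i
          simp [φ, h1]
      rw [this]
      exact class_le hq N hind f₀
  have htot : ((Fintype.card ι : ℝ) + 1) ^ N =
      ∑ y : ι → Fin (N + 1), ((univ.filter (fun f => φ f = y)).card : ℝ) := by
    have h1 := Finset.card_eq_sum_card_fiberwise (s := (univ : Finset (Fin N → Option ι)))
      (t := (univ : Finset (ι → Fin (N + 1)))) (f := φ) (fun _ _ => by simp)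
    have h2 : (univ : Finset (Fin N → Option ι)).card = (Fintype.card ι + 1) ^ N := by
      simp [Fintype.card_option]
    rw [h2] at h1
    exact_mod_cast h1
  have : ((Fintype.card ι : ℝ) + 1) ^ N ≤ ((N : ℝ) + 1) ^ (Fintype.card ι) * q ^ N := by
    rw [htot]
    refine (Finset.sum_le_sum fun y _ => hsmall y).trans ?_
    rw [Finset.sum_const, nsmul_eq_mul]
    apply le_of_eq
    congr 1
    simp
  linarith

/-- **Kronecker's theorem**, uniform version: the line through the origin in direction `h` comes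
within `ε` of every point of the torus as soon as `h` satisfies no integer relation with
coefficients at most `N`, where `N` depends on `ε` and the dimension only. -/
theorem kronecker_unif (ι : Type*) [Fintype ι] {ε : ℝ} (hε : 0 < ε) :
    ∃ N : ℕ, ∀ h : ι → ℝ, NoRelation h N → ∀ δ : ι → ℝ,
      ∃ t : ℝ, ∀ i, ∃ n : ℤ, |t * h i - δ i - n| < ε := by
  classical
  set ε' := min ε (1 / 2) with hε'
  have hε'0 : 0 < ε' := lt_min hε (by norm_num)
  have hε'2 : ε' ≤ 1 / 2 := min_le_right _ _
  rcases isEmpty_or_nonempty ι with hI | hI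
  · exact ⟨0, fun h _ δ => ⟨0, fun i => (hI.false i).elim⟩⟩
  have hKn : 1 ≤ Fintype.card ι := Fintype.card_pos
  have hK : 1 ≤ (Fintype.card ι : ℝ) := by
    exact_mod_cast hKn
  set κ := √(2 + 2 * Real.cos (2 * π * ε')) with hκ
  have hκ2 : κ < 2 := by
    rw [hκ, Real.sqrt_lt' (by norm_num)]
    have hcos : Real.cos (2 * π * ε') < Real.cos 0 := by
      apply Real.cos_lt_cos_of_nonneg_of_le_pi le_rfl
      · have hp := Real.pi_pos
        nlinarith
      · have hp := Real.pi_pos
        positivity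
    rw [Real.cos_zero] at hcos
    linarith
  have hκ0 : 0 ≤ κ := Real.sqrt_nonneg _
  set K : ℝ := (Fintype.card ι : ℝ) with hKdef
  set q : ℝ := κ + (K - 1) with hqdef
  have hq0 : 0 ≤ q := by linarith
  have hqK : q < K + 1 := by linarith
  -- exponential beats polynomial
  set r : ℝ := q / (K + 1) with hr
  have hr0 : 0 ≤ r := by positivity
  have hr1 : r < 1 := by
    rw [hr, div_lt_one (by linarith)]
    exact hqK
  have hlim := tendsto_pow_const_mul_const_pow_of_abs_lt_one (Fintype.card ι)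
    (r := r) (by rw [abs_of_nonneg hr0]; exact hr1)
  have hC : (0:ℝ) < 1 / 2 ^ (Fintype.card ι) := by positivity
  have hev := (hlim.eventually (gt_mem_nhds hC)).and (Filter.eventually_ge_atTop 1)
  obtain ⟨N, hN, hN1⟩ := hev.exists
  refine ⟨N, fun h hind δ => ?_⟩
  by_contra hcon
  push Not at hcon
  have hq : ∀ t, ‖FF h δ t‖ ≤ q := by
    intro t
    obtain ⟨i, hi⟩ := hcon t
    have h1 : ∀ n : ℤ, ε' ≤ |(t * h i - δ i) - n| := fun n => (min_le_left _ _).trans (hi n)
    have h2 := norm_one_add_exp_le hε'0 hε'2 h1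
    have h3 : FF h δ t = ((1 : ℂ) + cexp (2 * π * ((t * h i - δ i : ℝ) : ℂ) * Complex.I)) +
        ∑ j ∈ univ.erase i, cexp (2 * π * ((h j * t - δ j : ℝ) : ℂ) * Complex.I) := by
      unfold FF
      rw [Fintype.sum_option, ← Finset.add_sum_erase univ _ (Finset.mem_univ i)]
      simp only [ext0, Option.elim]
      rw [show h i * t = t * h i by ring]
      simp
      ring
    rw [h3]
    refine (norm_add_le _ _).trans (add_le_add h2 ?_)
    refine (norm_sum_le _ _).trans ?_
    have h4 : ∀ j ∈ univ.erase i, ‖cexp (2 * π * ((h j * t - δ j : ℝ) : ℂ) * Complex.I)‖ ≤ 1 := by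
      intro j _
      rw [show (2 * π * ((h j * t - δ j : ℝ) : ℂ) * Complex.I : ℂ) =
        ((2 * π * (h j * t - δ j) : ℝ) : ℂ) * Complex.I by push_cast; ring]
      exact (Complex.norm_exp_ofReal_mul_I _).le
    refine (Finset.sum_le_sum h4).trans ?_
    rw [Finset.sum_const, Finset.card_erase_of_mem (Finset.mem_univ i), nsmul_eq_mul, mul_one,
      Finset.card_univ, Nat.cast_sub]
    · simp [hKdef]
    · exact hKn
  have hN1' : (1:ℝ) ≤ N := by exact_mod_cast hN1
  have h5 := card_pow_le hq N hind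
  have h6 : ((N : ℝ) + 1) ^ (Fintype.card ι) ≤ 2 ^ (Fintype.card ι) * (N : ℝ) ^ (Fintype.card ι) := by
    rw [← mul_pow]
    apply pow_le_pow_left₀ (by positivity)
    linarith
  have h7 : q ^ N = r ^ N * (K + 1) ^ N := by
    rw [hr, div_pow]
    field_simp
  have h8 : (0:ℝ) < (K + 1) ^ N := by positivity
  rw [h7] at h5
  have h9 : (K + 1) ^ N ≤ (2 ^ (Fintype.card ι) * ((N : ℝ) ^ (Fintype.card ι) * r ^ N)) * (K + 1) ^ N := by
    calc (K + 1) ^ N ≤ ((N : ℝ) + 1) ^ (Fintype.card ι) * (r ^ N * (K + 1) ^ N) := h5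
      _ ≤ (2 ^ (Fintype.card ι) * (N : ℝ) ^ (Fintype.card ι)) * (r ^ N * (K + 1) ^ N) := by
        gcongr
      _ = _ := by ring
  have h10 : 2 ^ (Fintype.card ι) * ((N : ℝ) ^ (Fintype.card ι) * r ^ N) < 1 := by
    have h2p : (0:ℝ) < 2 ^ (Fintype.card ι) := by positivity
    calc 2 ^ (Fintype.card ι) * ((N : ℝ) ^ (Fintype.card ι) * r ^ N)
        < 2 ^ (Fintype.card ι) * (1 / 2 ^ (Fintype.card ι)) := by
          exact (mul_lt_mul_iff_right₀ h2p).2 hN
      _ = 1 := by field_simp
  nlinarith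

end Pool.Agent.DilSurf
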