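import Pool.Agent.Lib.MP_28dde8_gt.Stat
import Pool.Agent.Lib.MP_28dde8_gt.Kron

/-! # Closing up a cycle (MP_28dde8_gt) -/

open Finset
open scoped BigOperators Classical

noncomputable section

namespace Pool.Agent.DilSurf

variable {I E : Type} [Fintype I] [Fintype E]

/-- the recursion `A (j+1) * u (j+1) = B j * u j + w j`. -/
def rec1 (A B w : ℕ → ℝ) (x : ℝ) : ℕ → ℝ
  | 0 => x
  | j + 1 => (B j * rec1 A B w x j + w j) / A (j + 1)

theorem rec1_affine (A B w : ℕ → ℝ) (x : ℝ) (j : ℕ) :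
    rec1 A B w x j = (∏ l ∈ range j, B l / A (l + 1)) * x + rec1 A B w 0 j := by
  induction j with
  | zero => simp [rec1]
  | succ j ih =>
    rw [rec1, ih, rec1, Finset.prod_range_succ]
    ring

theorem rec1_bound {A B w : ℕ → ℝ} {M η : ℝ} (hM : 1 ≤ M) (hA : ∀ j, 0 < A j)
    (hAM : ∀ j, (A j)⁻¹ ≤ M) (hB0 : ∀ j, 0 ≤ B j) (hB : ∀ j, B j ≤ 1) (hw : ∀ j, |w j| ≤ η)
    (x : ℝ) (j : ℕ) :
    |rec1 A B w x j| ≤ (|x| + j * η) * M ^ j := by
  have hη : 0 ≤ η := (abs_nonneg _).trans (hw 0)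
  induction j with
  | zero => simp [rec1]
  | succ j ih =>
    rw [rec1, div_eq_mul_inv, abs_mul, abs_of_pos (inv_pos.2 (hA (j + 1)))]
    have h1 : |B j * rec1 A B w x j + w j| ≤ |rec1 A B w x j| + η := by
      refine (abs_add_le _ _).trans (add_le_add ?_ (hw j))
      rw [abs_mul, abs_of_nonneg (hB0 j)]
      exact mul_le_of_le_one_left (abs_nonneg _) (hB j)
    have hMj : 1 ≤ M ^ j := one_le_pow₀ hM
    have h2 : |rec1 A B w x j| + η ≤ (|x| + (j + 1) * η) * M ^ j := by
      calc |rec1 A B w x j| + η ≤ (|x| + j * η) * M ^ j + η * M ^ j := by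
            refine add_le_add ih ?_
            exact le_mul_of_one_le_right hη hMj
        _ = _ := by ring
    calc |B j * rec1 A B w x j + w j| * (A (j + 1))⁻¹
        ≤ ((|x| + (j + 1) * η) * M ^ j) * M := by
          refine mul_le_mul (h1.trans h2) (hAM _) (inv_pos.2 (hA _)).le ?_
          exact mul_nonneg (add_nonneg (abs_nonneg _) (by positivity)) (by positivity)
      _ = (|x| + ((j + 1 : ℕ) : ℝ) * η) * M ^ (j + 1) := by push_cast; ring

theorem rec1_periodic {A B w : ℕ → ℝ} {k : ℕ} (hA : ∀ j, A (j + k) = A j)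
    (hB : ∀ j, B (j + k) = B j) (hw : ∀ j, w (j + k) = w j) {x : ℝ}
    (hx : rec1 A B w x k = x) (j : ℕ) : rec1 A B w x (j + k) = rec1 A B w x j := by
  induction j with
  | zero => rw [Nat.zero_add, hx]; rfl
  | succ j ih =>
    rw [show j + 1 + k = (j + k) + 1 by ring, rec1, ih, hB, hw, show j + k + 1 = j + 1 + k by ring, hA,
      rec1]

theorem a_le_one (S : CylinderSurface I E) (e : E) : S.a e ≤ 1 := by
  rw [← S.sum_a (S.src e)]
  exact Finset.single_le_sum (f := S.a) (fun e _ => (S.a_pos e).le) (by simp)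

theorem b_le_one (S : CylinderSurface I E) (e : E) : S.b e ≤ 1 := by
  rw [← S.sum_b (S.tgt e)]
  exact Finset.single_le_sum (f := S.b) (fun e _ => (S.b_pos e).le) (by simp)

theorem periodic_mod {α : Type*} {f : ℕ → α} {k : ℕ} (hf : ∀ j, f (j + k) = f j) (j : ℕ) :
    f (j % k) = f j := by
  have : ∀ m j, f (j + m * k) = f j := by
    intro m
    induction m with
    | zero => intro j; simp
    | succ m ih => intro j; rw [Nat.succ_mul, ← add_assoc, hf, ih]
  conv_rhs => rw [← Nat.mod_add_div j k, mul_comm, this]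

/-- If the midpoints of the saddle connections of a cycle with non-trivial holonomy can be joined
approximately by segments of one direction, there is a closed geodesic along the cycle.  The
precision needed is explicit. -/
theorem exists_geodesic_of_approx (S : CylinderSurface I E) {k : ℕ} {e : ℕ → E}
    (hc : IsSimpleCycle S k e) (hρ : ∏ j ∈ range k, S.b (e j) / S.a (e j) ≠ 1)
    {K : ℕ} (hkK : k ≤ K) {M γ η : ℝ} (hM1 : 1 ≤ M) (hAM' : ∀ x, (S.a x)⁻¹ ≤ M) (hγ : 0 < γ)
    (hργ : γ ≤ |1 - ∏ j ∈ range k, S.b (e j) / S.a (e j)|) (hηpos : 0 < η)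
    (hη : η * ((K * M ^ K / γ + K) * M ^ K) < 1 / 2)
    (happ : ∃ t : ℝ, ∀ j, ∃ n : ℤ,
      |t * S.h (S.tgt (e j)) - (S.p (e (j + 1)) + S.a (e (j + 1)) / 2 - S.q (e j) - S.b (e j) / 2)
        - n| < η) :
    ∃ γ : ClosedGeodesic S, γ.hol ≠ 1 := by
  obtain ⟨hk, hper, hcyl, hinj⟩ := hc
  set A : ℕ → ℝ := fun j => S.a (e j) with hAdef
  set B : ℕ → ℝ := fun j => S.b (e j) with hBdef
  have hApos : ∀ j, 0 < A j := fun j => S.a_pos _
  have hBpos : ∀ j, 0 < B j := fun j => S.b_pos _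
  have hAper : ∀ j, A (j + k) = A j := fun j => by simp only [hAdef, hper]
  have hBper : ∀ j, B (j + k) = B j := fun j => by simp only [hBdef, hper]
  have hAM : ∀ j, (A j)⁻¹ ≤ M := fun j => hAM' _
  set ρ : ℝ := ∏ l ∈ range k, B l / A (l + 1) with hρdef
  have hρ' : ρ = ∏ j ∈ range k, S.b (e j) / S.a (e j) := by
    rw [hρdef, Finset.prod_div_distrib, Finset.prod_div_distrib]
    congr 1
    have h1 := Finset.prod_range_succ A k
    have h2 := Finset.prod_range_succ' A k
    have h3 : A k = A 0 := by simpa using hAper 0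
    rw [h1, h3] at h2
    have h4 := mul_right_cancel₀ (hApos 0).ne' h2
    exact h4.symm
  have hρ1 : ρ ≠ 1 := by rw [hρ']; exact hρ
  have hρabs : γ ≤ |1 - ρ| := by rw [hρ']; exact hργ
  have hMk : M ^ k ≤ M ^ K := pow_le_pow_right₀ hM1 hkK
  have hkK' : (k : ℝ) ≤ K := by exact_mod_cast hkK
  obtain ⟨t, ht⟩ := happ
  -- choose the integers periodically
  choose m hm using ht
  set n : ℕ → ℤ := fun j => m (j % k) with hn
  have hnper : ∀ j, n (j + k) = n j := fun j => by simp only [hn, Nat.add_mod_right]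
  set X : ℕ → ℝ := fun j => t * S.h (S.tgt (e j)) -
    (S.p (e (j + 1)) + S.a (e (j + 1)) / 2 - S.q (e j) - S.b (e j) / 2) with hX
  have hXper : ∀ j, X (j + k) = X j := by
    intro j
    simp only [hX]
    rw [show j + k + 1 = (j + 1) + k by ring, hper, hper]
  set w : ℕ → ℝ := fun j => X j - n j with hw
  have hwper : ∀ j, w (j + k) = w j := fun j => by simp only [hw, hXper, hnper]
  have hwlt : ∀ j, |w j| < η := by
    intro j
    have h1 := hm (j % k)
    have h2 : X (j % k) = X j := periodic_mod hXper j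
    have h3 : |X (j % k) - m (j % k)| < η := h1
    rw [h2] at h3
    exact h3
  set c : ℝ := rec1 A B w 0 k with hcdef
  set x : ℝ := c / (1 - ρ) with hxdef
  have hx : rec1 A B w x k = x := by
    rw [rec1_affine, ← hρdef, ← hcdef, hxdef]
    have : (1 - ρ) ≠ 0 := sub_ne_zero.2 (Ne.symm hρ1)
    field_simp
    ring
  set u : ℕ → ℝ := rec1 A B w x with hu
  have huper : ∀ j, u (j + k) = u j := rec1_periodic hAper hBper hwper hx
  have hB1 : ∀ j, B j ≤ 1 := fun j => b_le_one S _
  have hcb : |c| ≤ K * η * M ^ K := by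
    have := rec1_bound hM1 hApos hAM (fun j => (hBpos j).le) hB1 (fun j => (hwlt j).le) 0 k
    rw [abs_zero, zero_add] at this
    refine this.trans ?_
    gcongr
  have hxb : |x| ≤ K * η * M ^ K / γ := by
    rw [hxdef, abs_div]
    gcongr
  have hub : ∀ j, |u j| < 1 / 2 := by
    intro j
    have h1 : u (j % k) = u j := periodic_mod huper j
    rw [← h1]
    have hjk : j % k ≤ K := (Nat.mod_lt _ hk).le.trans hkK
    have h2 := rec1_bound hM1 hApos hAM (fun j => (hBpos j).le) hB1 (fun j => (hwlt j).le) x (j % k)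
    have hjk' : ((j % k : ℕ) : ℝ) ≤ K := by exact_mod_cast hjk
    calc |u (j % k)| ≤ (|x| + ((j % k : ℕ) : ℝ) * η) * M ^ (j % k) := h2
      _ ≤ (K * η * M ^ K / γ + K * η) * M ^ K := by
        apply mul_le_mul _ (pow_le_pow_right₀ hM1 hjk) (by positivity) (by positivity)
        exact add_le_add hxb (mul_le_mul_of_nonneg_right hjk' hηpos.le)
      _ = η * ((K * M ^ K / γ + K) * M ^ K) := by ring
      _ < 1 / 2 := hη
  refine ⟨⟨t, k, hk, e, fun j => u j + 1 / 2, hper, fun j => by simp only [huper],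
    fun j => ?_, fun j => ?_, hcyl, fun j => ⟨n j, ?_⟩⟩, ?_⟩
  · have := (abs_lt.1 (hub j)).1
    linarith
  · have := (abs_lt.1 (hub j)).2
    linarith
  · have h1 : A (j + 1) * u (j + 1) = B j * u j + w j := by
      rw [hu, rec1]
      have := (hApos (j + 1)).ne'
      field_simp
    simp only [hAdef, hBdef, hw, hX] at h1
    linarith
  · exact hρ

/-- A simple cycle crosses at most `card I` cylinders. -/
theorem simple_le (S : CylinderSurface I E) {k : ℕ} {e : ℕ → E} (hc : IsSimpleCycle S k e) :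
    k ≤ Fintype.card I := by
  obtain ⟨_, _, _, hinj⟩ := hc
  have h1 : ((range k).image (fun j => S.src (e j))).card = k := by
    rw [Finset.card_image_of_injOn, Finset.card_range]
    intro i hi j hj hij
    exact hinj i j (by simpa using hi) (by simpa using hj) hij
  rw [← h1]
  exact Finset.card_le_univ _

/-- The product of the ratios along a simple cycle is a product over a set of saddle
connections. -/
theorem prod_eq_finset (S : CylinderSurface I E) {k : ℕ} {e : ℕ → E} (hc : IsSimpleCycle S k e) :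
    ∏ j ∈ range k, S.b (e j) / S.a (e j) = ∏ x ∈ (range k).image e, S.b x / S.a x := by
  rw [Finset.prod_image]
  intro i hi j hj hij
  exact hc.2.2.2 i j (by simpa using hi) (by simpa using hj) (by rw [hij])

/-- **Kronecker case.** -/
theorem exists_geodesic_of_kron (S : CylinderSurface I E) {η : ℝ}
    (hN : ∀ δ : I → ℝ, ∃ t : ℝ, ∀ i, ∃ n : ℤ, |t * S.h i - δ i - n| < η)
    {k : ℕ} {e : ℕ → E} (hc : IsSimpleCycle S k e) :
    ∃ t : ℝ, ∀ j, ∃ n : ℤ,
      |t * S.h (S.tgt (e j)) - (S.p (e (j + 1)) + S.a (e (j + 1)) / 2 - S.q (e j) - S.b (e j) / 2)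
        - n| < η := by
  obtain ⟨hk, hper, hcyl, hinj⟩ := hc
  set X : ℕ → ℝ := fun j => S.p (e (j + 1)) + S.a (e (j + 1)) / 2 - S.q (e j) - S.b (e j) / 2 with hX
  have hXper : ∀ j, X (j + k) = X j := by
    intro j
    simp only [hX]
    rw [show j + k + 1 = (j + 1) + k by ring, hper, hper]
  let δ : I → ℝ := fun i => if h : ∃ j, j < k ∧ S.tgt (e j) = i then X h.choose else 0
  have hδ : ∀ j, j < k → δ (S.tgt (e j)) = X j := by
    intro j hj
    have hex : ∃ j', j' < k ∧ S.tgt (e j') = S.tgt (e j) := ⟨j, hj, rfl⟩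
    have h1 : δ (S.tgt (e j)) = X hex.choose := by simp only [δ]; rw [dif_pos hex]
    obtain ⟨h2, h3⟩ := hex.choose_spec
    rw [h1]
    clear h1
    generalize hex.choose = j' at h2 h3 ⊢
    rw [hcyl, hcyl] at h3
    -- reduce modulo `k`
    have h5 : S.src (e ((j' + 1) % k)) = S.src (e ((j + 1) % k)) := by
      rw [periodic_mod hper, periodic_mod hper]; exact h3
    have h6 := hinj _ _ (Nat.mod_lt _ hk) (Nat.mod_lt _ hk) h5
    have h7 : (j' + 1) ≡ (j + 1) [MOD k] := h6
    have h8 : j' ≡ j [MOD k] := Nat.ModEq.add_right_cancel' 1 h7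
    rw [Nat.ModEq.eq_of_lt_of_lt h8 h2 hj]
  obtain ⟨t, ht⟩ := hN δ
  refine ⟨t, fun j => ?_⟩
  obtain ⟨n, hn⟩ := ht (S.tgt (e j))
  refine ⟨n, ?_⟩
  have h1 : δ (S.tgt (e j)) = X j := by
    rw [← periodic_mod hper j, hδ _ (Nat.mod_lt _ hk), periodic_mod hXper]
  rw [h1] at hn
  exact hn

/-- Two surfaces with the same gluing pattern and the same lengths of saddle connections; the
heights of the cylinders and the twists (the positions `p`, `q`) may differ. -/
def SameLengths (S S' : CylinderSurface I E) : Prop :=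
  S.src = S'.src ∧ S.tgt = S'.tgt ∧ S.top = S'.top ∧ S.bot = S'.bot ∧ S.a = S'.a ∧ S.b = S'.b

/-- **Theorem 1**, uniform version. -/
theorem translation_of_noRelation (S₀ : CylinderSurface I E) :
    ∃ N : ℕ, ∀ S : CylinderSurface I E, SameLengths S₀ S → NoRelation S.h N →
      AllCylindersFlat S → IsTranslation S := by
  -- constants
  set M : ℝ := 1 + ∑ x, (S₀.a x)⁻¹ with hMdef
  have hM1 : 1 ≤ M := by
    rw [hMdef]
    have : 0 ≤ ∑ x, (S₀.a x)⁻¹ := Finset.sum_nonneg fun x _ => (inv_pos.2 (S₀.a_pos x)).le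
    linarith
  have hAM : ∀ x, (S₀.a x)⁻¹ ≤ M := by
    intro x
    have h2 : (S₀.a x)⁻¹ ≤ ∑ x, (S₀.a x)⁻¹ :=
      Finset.single_le_sum (f := fun x => (S₀.a x)⁻¹) (fun x _ => (inv_pos.2 (S₀.a_pos x)).le)
        (Finset.mem_univ x)
    rw [hMdef]; linarith
  obtain ⟨γ, hγ, hγ'⟩ : ∃ γ : ℝ, 0 < γ ∧ ∀ A : Finset E, (∏ x ∈ A, S₀.b x / S₀.a x) ≠ 1 →
      γ ≤ |1 - ∏ x ∈ A, S₀.b x / S₀.a x| := by
    set T : Finset ℝ := (univ.image fun A : Finset E => |1 - ∏ x ∈ A, S₀.b x / S₀.a x|).filter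
      (fun y => 0 < y) with hT
    rcases T.eq_empty_or_nonempty with h | h
    · refine ⟨1, one_pos, fun A hA => ?_⟩
      exfalso
      have : |1 - ∏ x ∈ A, S₀.b x / S₀.a x| ∈ T := by
        rw [hT, Finset.mem_filter]
        exact ⟨Finset.mem_image.2 ⟨A, Finset.mem_univ _, rfl⟩,
          abs_pos.2 (sub_ne_zero.2 (Ne.symm hA))⟩
      rw [h] at this
      simp at this
    · refine ⟨T.min' h, ?_, fun A hA => ?_⟩
      · have hmem := T.min'_mem h
        exact (Finset.mem_filter.1 hmem).2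
      · apply Finset.min'_le
        rw [hT, Finset.mem_filter]
        exact ⟨Finset.mem_image.2 ⟨A, Finset.mem_univ _, rfl⟩,
          abs_pos.2 (sub_ne_zero.2 (Ne.symm hA))⟩
  set K : ℕ := Fintype.card I with hK
  set C : ℝ := (K * M ^ K / γ + K) * M ^ K with hC
  have hC0 : 0 ≤ C := by rw [hC]; positivity
  set η : ℝ := 1 / (4 * (C + 1)) with hη
  have hηpos : 0 < η := by positivity
  have hηC : η * C < 1 / 2 := by
    have h1 : η * (C + 1) = 1 / 4 := by rw [hη]; field_simp
    nlinarith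
  obtain ⟨N, hN⟩ := kronecker_unif I hηpos
  refine ⟨N, fun S hS hrel hflat => ?_⟩
  obtain ⟨h1, h2, h3, h4, h5, h6⟩ := hS
  apply translation_of_cycles
  intro k e hc
  by_contra hρ
  obtain ⟨γ', hγ''⟩ := exists_geodesic_of_approx S hc hρ (simple_le S hc) hM1
    (by rw [← h5]; exact hAM) hγ (by
      rw [prod_eq_finset S hc, ← h5, ← h6]
      apply hγ'
      rw [h5, h6, ← prod_eq_finset S hc]
      exact hρ) hηpos hηC
    (exists_geodesic_of_kron S (hN S.h hrel) hc)
  exact hγ'' (hflat γ')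

end Pool.Agent.DilSurf
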