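import Mathlib

/-! # Dilation surfaces cut into flat cylinders (MP_28dde8_gt) -/

open Finset
open scoped BigOperators Classical

noncomputable section

namespace Pool.Agent.DilSurf

/-- A closed dilation surface which is cut by the singular leaves of one direction (called
horizontal) into flat cylinders.  `I` indexes the flat cylinders, each of them normalised by a
dilation so that its circumference is `1`, and `E` indexes the horizontal saddle connections.
The saddle connection `e` lies on the top side of the cylinder `src e` and on the bottom side of
the cylinder `tgt e`.  On the top circle `ℝ/ℤ` of `src e` it is the arc of length `a e` which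
starts at the point `p e`; on the bottom circle `ℝ/ℤ` of `tgt e` it is the arc of length `b e`
which starts at `q e`.  The permutation `top` sends a saddle connection to the next one to the
right on the same top circle, and `bot` to the next one to the right on the same bottom circle. -/
structure CylinderSurface (I E : Type) [Fintype I] [Fintype E] where
  /-- the cylinder below the saddle connection -/
  src : E → I
  /-- the cylinder above the saddle connection -/
  tgt : E → I
  /-- next saddle connection to the right on the same top circle -/
  top : Equiv.Perm E
  /-- next saddle connection to the right on the same bottom circle -/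
  bot : Equiv.Perm E
  /-- each top circle is one cycle of `top` -/
  src_eq_iff : ∀ e e', src e = src e' ↔ top.SameCycle e e'
  /-- each bottom circle is one cycle of `bot` -/
  tgt_eq_iff : ∀ e e', tgt e = tgt e' ↔ bot.SameCycle e e'
  /-- length on the top circle of the cylinder below -/
  a : E → ℝ
  /-- length on the bottom circle of the cylinder above -/
  b : E → ℝ
  a_pos : ∀ e, 0 < a e
  b_pos : ∀ e, 0 < b e
  /-- the top circle has length `1` -/
  sum_a : ∀ i, (∑ e with src e = i, a e) = 1
  /-- the bottom circle has length `1` -/
  sum_b : ∀ i, (∑ e with tgt e = i, b e) = 1
  /-- starting point on the top circle, modulo `1` -/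
  p : E → ℝ
  /-- starting point on the bottom circle, modulo `1` -/
  q : E → ℝ
  /-- the next arc on the top circle starts where the arc `e` ends -/
  p_top : ∀ e, ∃ n : ℤ, p (top e) = p e + a e + n
  /-- the next arc on the bottom circle starts where the arc `e` ends -/
  q_bot : ∀ e, ∃ n : ℤ, q (bot e) = q e + b e + n
  /-- height of the cylinder, its circumference being `1`; this is its modulus -/
  h : I → ℝ
  h_pos : ∀ i, 0 < h i
  /-- the surface is connected -/
  connected : ∀ J : Set I, J.Nonempty → (∀ e, src e ∈ J ↔ tgt e ∈ J) → J = Set.univ

variable {I E : Type} [Fintype I] [Fintype E]

/-- A closed geodesic which is not horizontal and avoids the singularities, traversed upwards.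
In the normalised coordinates of every cylinder it has direction `(t, 1)`.  It crosses the saddle
connections `e 0, e 1, ..., e (k - 1)` cyclically, `e j` at the relative position `s j ∈ (0, 1)`.
Between `e j` and `e (j + 1)` it crosses the cylinder `tgt (e j) = src (e (j + 1))` along a
straight segment, which moves horizontally by `t * h` modulo the circumference `1`. -/
structure ClosedGeodesic (S : CylinderSurface I E) where
  /-- the slope parameter: the direction is `(t, 1)` -/
  t : ℝ
  /-- number of crossings -/
  k : ℕ
  k_pos : 0 < k
  /-- the saddle connections crossed -/
  e : ℕ → E
  /-- relative positions of the crossing points -/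
  s : ℕ → ℝ
  e_per : ∀ j, e (j + k) = e j
  s_per : ∀ j, s (j + k) = s j
  s_pos : ∀ j, 0 < s j
  s_lt : ∀ j, s j < 1
  cyl : ∀ j, S.tgt (e j) = S.src (e (j + 1))
  cross : ∀ j, ∃ n : ℤ, S.q (e j) + S.b (e j) * s j + t * S.h (S.tgt (e j)) =
    S.p (e (j + 1)) + S.a (e (j + 1)) * s (j + 1) + n

/-- The linear holonomy of a closed geodesic: a horizontal vector of length `a e` in the cylinder
below `e` has length `b e` in the cylinder above. -/
def ClosedGeodesic.hol {S : CylinderSurface I E} (γ : ClosedGeodesic S) : ℝ :=
  ∏ j ∈ range γ.k, S.b (γ.e j) / S.a (γ.e j)

/-- All cylinders of the surface are flat: every closed geodesic has trivial linear holonomy. (The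
cylinder around a closed geodesic is flat if the holonomy is `1` and affine otherwise; horizontal
closed geodesics are core curves of the given flat cylinders.) -/
def AllCylindersFlat (S : CylinderSurface I E) : Prop :=
  ∀ γ : ClosedGeodesic S, γ.hol = 1

/-- The surface is a translation surface: one can rescale the cylinders by constants such that all
gluing maps become translations. -/
def IsTranslation (S : CylinderSurface I E) : Prop :=
  ∃ c : I → ℝ, (∀ i, 0 < c i) ∧ ∀ e, c (S.src e) * S.a e = c (S.tgt e) * S.b e

end Pool.Agent.DilSurf
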