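import Pool.Agent.Lib.MP_28dde8_gt.Stat

/-! # Genus two (MP_28dde8_gt) -/

open Finset
open scoped BigOperators Classical

noncomputable section

namespace Pool.Agent.DilSurf

variable {I E : Type} [Fintype I] [Fintype E]

/-- The singular points: cycles of the permutation which turns once (by `2 π`) around a singular
point.  A cycle of length `k` is a cone point of angle `2 π k`. -/
def ConePoint (S : CylinderSurface I E) : Type :=
  Quotient (Equiv.Perm.SameCycle.setoid (S.top * S.bot⁻¹))

/-- Euler characteristic of the closed surface: the cylinders are annuli and contribute `0`. -/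
def eulerChar (S : CylinderSurface I E) : ℤ :=
  (Nat.card (ConePoint S) : ℤ) - Fintype.card E

/-- **Loop lemma.** -/
theorem loop_lemma (S : CylinderSurface I E) (hflat : AllCylindersFlat S) {e : E}
    (he : S.tgt e = S.src e) : S.b e = S.a e := by
  have hpos := S.h_pos (S.tgt e)
  let γ : ClosedGeodesic S :=
    { t := (S.p e - S.q e + (S.a e - S.b e) / 2) / S.h (S.tgt e)
      k := 1
      k_pos := one_pos
      e := fun _ => e
      s := fun _ => 1 / 2
      e_per := fun _ => rfl
      s_per := fun _ => rfl
      s_pos := fun _ => by norm_num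
      s_lt := fun _ => by norm_num
      cyl := fun _ => he
      cross := fun _ => ⟨0, by
        rw [div_mul_cancel₀ _ hpos.ne']
        push_cast
        ring⟩ }
  have h1 := hflat γ
  have h2 : γ.hol = S.b e / S.a e := by
    simp [ClosedGeodesic.hol, γ]
  rw [h2, div_eq_one_iff_eq (S.a_pos e).ne'] at h1
  exact h1

/-- an open interval longer than `c` contains an integer multiple of `c`. -/
theorem exists_mult {c u v : ℝ} (hc : 0 < c) (huv : c < v - u) :
    ∃ n : ℤ, u < n * c ∧ n * c < v := by
  refine ⟨⌊u / c⌋ + 1, ?_, ?_⟩
  · have h1 := Int.lt_floor_add_one (u / c)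
    rw [div_lt_iff₀ hc] at h1
    push_cast
    exact h1
  · have h1 := Int.floor_le (u / c)
    rw [le_div_iff₀ hc] at h1
    push_cast
    linarith

/-- **Two-cycle lemma.**  No condition on the moduli. -/
theorem two_cycle_aux (S : CylinderSurface I E) {e f : E}
    (hef : S.tgt e = S.src f) (hfe : S.tgt f = S.src e) (m n : ℤ) (r : ℝ) (hr0 : 0 < r) (hr1 : r < 1)
    (hr : S.h (S.tgt f) * (S.p f - S.q e + S.a f * r - S.b e * (1 - r) + n) =
      S.h (S.tgt e) * (S.p e - S.q f + S.a e * (1 - r) - S.b f * r + m)) :
    ∃ γ : ClosedGeodesic S, γ.hol = (S.b e / S.a e) * (S.b f / S.a f) := by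
  have hj := S.h_pos (S.tgt e)
  have hi := S.h_pos (S.tgt f)
  let ee : ℕ → E := fun j => if Even j then e else f
  let ss : ℕ → ℝ := fun j => if Even j then 1 - r else r
  have hev : ∀ j, Even (j + 2) ↔ Even j := by
    intro j
    rw [Nat.even_add]
    simp
  have hs1 : ∀ j, Even j → ¬ Even (j + 1) := by
    intro j hj
    rw [Nat.even_add_one]
    simpa using hj
  have hs2 : ∀ j, ¬ Even j → Even (j + 1) := by
    intro j hj
    rw [Nat.even_add_one]
    exact hj
  refine ⟨⟨(S.p f - S.q e + S.a f * r - S.b e * (1 - r) + n) / S.h (S.tgt e), 2, two_pos, ee, ss,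
    fun j => by simp only [ee, hev], fun j => by simp only [ss, hev], fun j => ?_, fun j => ?_,
    fun j => ?_, fun j => ?_⟩, ?_⟩
  · simp only [ss]; split_ifs <;> linarith
  · simp only [ss]; split_ifs <;> linarith
  · by_cases h : Even j
    · simp only [ee, if_pos h, if_neg (hs1 j h)]; exact hef
    · simp only [ee, if_neg h, if_pos (hs2 j h)]; exact hfe
  · by_cases h : Even j
    · refine ⟨n, ?_⟩
      simp only [ee, ss, if_pos h, if_neg (hs1 j h)]
      rw [div_mul_cancel₀ _ hj.ne']
      ring
    · refine ⟨m, ?_⟩
      simp only [ee, ss, if_neg h, if_pos (hs2 j h)]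
      have : (S.p f - S.q e + S.a f * r - S.b e * (1 - r) + n) / S.h (S.tgt e) * S.h (S.tgt f) =
          S.p e - S.q f + S.a e * (1 - r) - S.b f * r + m := by
        rw [div_mul_eq_mul_div, div_eq_iff hj.ne']
        linarith
      rw [this]
      ring
  · simp [ClosedGeodesic.hol, ee, Finset.prod_range_succ, div_mul_div_comm]

theorem two_cycle_lemma (S : CylinderSurface I E) (hflat : AllCylindersFlat S) {e f : E}
    (hef : S.tgt e = S.src f) (hfe : S.tgt f = S.src e)
    (hne : (S.b e / S.a e) * (S.b f / S.a f) ≠ 1) :
    S.a f + S.b e < 1 ∧ S.a e + S.b f < 1 := by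
  have hj := S.h_pos (S.tgt e)
  have hi := S.h_pos (S.tgt f)
  have ha := S.a_pos e
  have hb := S.b_pos e
  have ha' := S.a_pos f
  have hb' := S.b_pos f
  have hnone : ¬ ∃ γ : ClosedGeodesic S, γ.hol = (S.b e / S.a e) * (S.b f / S.a f) := by
    rintro ⟨γ, hγ⟩
    exact hne (hγ.symm.trans (hflat γ))
  set hI := S.h (S.tgt f) with hIdef
  set hJ := S.h (S.tgt e) with hJdef
  -- the affine function of `r`
  have key : ∀ c : ℝ, 0 < c → c < hI * (S.a f + S.b e) + hJ * (S.b f + S.a e) →
      ∃ (n : ℤ) (r : ℝ), 0 < r ∧ r < 1 ∧
      hI * (S.p f - S.q e + S.a f * r - S.b e * (1 - r)) -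
        hJ * (S.p e - S.q f + S.a e * (1 - r) - S.b f * r) = n * c := by
    intro c hc hlt
    set u := hI * (S.p f - S.q e - S.b e) - hJ * (S.p e - S.q f + S.a e) with hu
    set Λ := hI * (S.a f + S.b e) + hJ * (S.b f + S.a e) with hΛ
    have hΛpos : 0 < Λ := hc.trans hlt
    obtain ⟨n, hn1, hn2⟩ := exists_mult (u := u) (v := u + Λ) hc (by linarith)
    refine ⟨n, (n * c - u) / Λ, by apply div_pos <;> linarith,
      by rw [div_lt_one hΛpos]; linarith, ?_⟩
    have h1 : (n * c - u) / Λ * Λ = n * c - u := div_mul_cancel₀ _ hΛpos.ne'
    set r := (n * c - u) / Λ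
    rw [hΛ] at h1
    rw [hu] at h1
    linarith
  constructor
  · by_contra hcon
    push Not at hcon
    have hlt : hI < hI * (S.a f + S.b e) + hJ * (S.b f + S.a e) := by
      have h1 : hI ≤ hI * (S.a f + S.b e) := le_mul_of_one_le_right hi.le hcon
      have h2 : 0 < hJ * (S.b f + S.a e) := by positivity
      linarith
    obtain ⟨n, r, hr0, hr1, hr⟩ := key hI hi hlt
    apply hnone
    apply two_cycle_aux S hef hfe 0 (-n) r hr0 hr1
    push_cast
    linarith
  · by_contra hcon
    push Not at hcon
    have hlt : hJ < hI * (S.a f + S.b e) + hJ * (S.b f + S.a e) := by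
      have h1 : hJ ≤ hJ * (S.b f + S.a e) := le_mul_of_one_le_right hj.le (by linarith)
      have h2 : 0 < hI * (S.a f + S.b e) := by positivity
      linarith
    obtain ⟨n, r, hr0, hr1, hr⟩ := key hJ hj hlt
    apply hnone
    apply two_cycle_aux S hef hfe n 0 r hr0 hr1
    push_cast
    linarith

theorem src_top (S : CylinderSurface I E) (e : E) : S.src (S.top e) = S.src e :=
  (S.src_eq_iff _ _).2 (Equiv.Perm.sameCycle_apply_left.2 (Equiv.Perm.SameCycle.refl _ _))

theorem tgt_bot (S : CylinderSurface I E) (e : E) : S.tgt (S.bot e) = S.tgt e :=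
  (S.tgt_eq_iff _ _).2 (Equiv.Perm.sameCycle_apply_left.2 (Equiv.Perm.SameCycle.refl _ _))

/-- In genus two with all cone angles at least `4 π` there are at most four saddle connections. -/
theorem card_le_four (S : CylinderSurface I E) (hcone : ∀ e, S.top e ≠ S.bot e)
    (hgenus : eulerChar S = -2) : Fintype.card E ≤ 4 := by
  unfold eulerChar at hgenus
  let Q := Quotient (Equiv.Perm.SameCycle.setoid (S.top * S.bot⁻¹))
  have hQ : Nat.card (ConePoint S) = Fintype.card Q := by
    change Nat.card Q = _
    exact Nat.card_eq_fintype_card
  rw [hQ] at hgenus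
  have h2 : 2 * Fintype.card Q ≤ Fintype.card E := by
    have h3 := Finset.card_eq_sum_card_fiberwise (s := (univ : Finset E))
      (t := (univ : Finset Q)) (f := fun e => (Quotient.mk _ e : Q)) (fun _ _ => by simp)
    rw [Finset.card_univ] at h3
    rw [h3]
    have h4 : ∀ y ∈ (univ : Finset Q), 2 ≤ (univ.filter (fun e => (Quotient.mk _ e : Q) = y)).card := by
      intro y _
      obtain ⟨e, rfl⟩ := Quotient.exists_rep y
      have hne : (S.top * S.bot⁻¹) e ≠ e := by
        intro h
        apply hcone (S.bot⁻¹ e)
        rw [Equiv.Perm.mul_apply] at h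
        rw [h]
        simp
      rw [← Finset.card_pair hne]
      apply Finset.card_le_card
      intro x hx
      simp only [Finset.mem_insert, Finset.mem_singleton] at hx
      simp only [Finset.mem_filter, Finset.mem_univ, true_and]
      rcases hx with rfl | rfl
      · apply Quotient.sound
        exact Equiv.Perm.sameCycle_apply_left.2 (Equiv.Perm.SameCycle.refl _ _)
      · rfl
    calc 2 * Fintype.card Q = ∑ _y : Q, 2 := by simp [mul_comm]
      _ ≤ _ := Finset.sum_le_sum h4
  omega

/-- In genus two every simple cycle has trivial holonomy. -/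
theorem cycle_trivial (S : CylinderSurface I E) (hcone : ∀ e, S.top e ≠ S.bot e)
    (hcard : Fintype.card E ≤ 4) (hflat : AllCylindersFlat S) (k : ℕ) (e : ℕ → E)
    (hc : IsSimpleCycle S k e) : ∏ j ∈ range k, S.b (e j) / S.a (e j) = 1 := by
  obtain ⟨hk, hper, hcyl, hinj⟩ := hc
  -- number of saddle connections on top and bottom circles
  let T : I → ℕ := fun i => (univ.filter (fun x => S.src x = i)).card
  let B : I → ℕ := fun i => (univ.filter (fun x => S.tgt x = i)).card
  have hTsum : ∀ s : Finset I, ∑ i ∈ s, T i ≤ Fintype.card E := by
    intro s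
    have h1 : ∑ i ∈ s, T i ≤ ∑ i, T i :=
      Finset.sum_le_sum_of_subset (Finset.subset_univ s)
    have h2 : ∑ i, T i = Fintype.card E := by
      rw [← Finset.card_univ (α := E)]
      exact (Finset.card_eq_sum_card_fiberwise (fun _ _ => by simp)).symm
    omega
  have hBsum : ∀ s : Finset I, ∑ i ∈ s, B i ≤ Fintype.card E := by
    intro s
    have h1 : ∑ i ∈ s, B i ≤ ∑ i, B i :=
      Finset.sum_le_sum_of_subset (Finset.subset_univ s)
    have h2 : ∑ i, B i = Fintype.card E := by
      rw [← Finset.card_univ (α := E)]
      exact (Finset.card_eq_sum_card_fiberwise (fun _ _ => by simp)).symm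
    omega
  have hT1 : ∀ x, 1 ≤ T (S.src x) := fun x => Finset.card_pos.2 ⟨x, by simp⟩
  have hB1 : ∀ x, 1 ≤ B (S.tgt x) := fun x => Finset.card_pos.2 ⟨x, by simp⟩
  have h3 : ∀ x, 3 ≤ T (S.src x) + B (S.tgt x) := by
    intro x
    by_contra hcon
    have hT := hT1 x
    have hB := hB1 x
    have hT' : T (S.src x) = 1 := by omega
    have hB' : B (S.tgt x) = 1 := by omega
    obtain ⟨y, hy⟩ := Finset.card_eq_one.1 hT'
    obtain ⟨z, hz⟩ := Finset.card_eq_one.1 hB'
    have hxy : x = y := by
      have : x ∈ univ.filter (fun w => S.src w = S.src x) := by simp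
      rw [hy] at this; simpa using this
    have hxz : x = z := by
      have : x ∈ univ.filter (fun w => S.tgt w = S.tgt x) := by simp
      rw [hz] at this; simpa using this
    have htop : S.top x = x := by
      have : S.top x ∈ univ.filter (fun w => S.src w = S.src x) := by simp [src_top]
      rw [hy] at this
      rw [Finset.mem_singleton] at this
      rw [this, ← hxy]
    have hbot : S.bot x = x := by
      have : S.bot x ∈ univ.filter (fun w => S.tgt w = S.tgt x) := by simp [tgt_bot]
      rw [hz] at this
      rw [Finset.mem_singleton] at this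
      rw [this, ← hxz]
    exact hcone x (htop.trans hbot.symm)
  have hinjT : ∀ s : ℕ, (∀ i ∈ range k, ∀ j ∈ range k, S.tgt (e i) = S.tgt (e j) → i = j) := by
    intro _ i hi j hj hij
    rw [Finset.mem_range] at hi hj
    rw [hcyl, hcyl] at hij
    have h5 : S.src (e ((i + 1) % k)) = S.src (e ((j + 1) % k)) := by
      have hm : ∀ n, e (n % k) = e n := by
        intro n
        have : ∀ m n, e (n + m * k) = e n := by
          intro m
          induction m with
          | zero => intro n; simp
          | succ m ih => intro n; rw [Nat.succ_mul, ← add_assoc, hper, ih]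
        conv_rhs => rw [← Nat.mod_add_div n k, mul_comm, this]
      rw [hm, hm]; exact hij
    have h6 := hinj _ _ (Nat.mod_lt _ hk) (Nat.mod_lt _ hk) h5
    have h7 : (i + 1) ≡ (j + 1) [MOD k] := h6
    exact Nat.ModEq.eq_of_lt_of_lt (Nat.ModEq.add_right_cancel' 1 h7) hi hj
  have hsumT : ∑ j ∈ range k, T (S.src (e j)) ≤ 4 := by
    have h1 : ∑ j ∈ range k, T (S.src (e j)) = ∑ i ∈ (range k).image (fun j => S.src (e j)), T i := by
      rw [Finset.sum_image]
      intro i hi j hj hij
      exact hinj i j (Finset.mem_range.1 hi) (Finset.mem_range.1 hj) hij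
    rw [h1]
    exact (hTsum _).trans hcard
  have hsumB : ∑ j ∈ range k, B (S.tgt (e j)) ≤ 4 := by
    have h1 : ∑ j ∈ range k, B (S.tgt (e j)) = ∑ i ∈ (range k).image (fun j => S.tgt (e j)), B i := by
      rw [Finset.sum_image]
      intro i hi j hj hij
      exact hinjT 0 i hi j hj hij
    rw [h1]
    exact (hBsum _).trans hcard
  have hsum3 : k * 3 ≤ ∑ j ∈ range k, T (S.src (e j)) + ∑ j ∈ range k, B (S.tgt (e j)) := by
    rw [← Finset.sum_add_distrib]
    calc k * 3 = ∑ _j ∈ range k, 3 := by simp
      _ ≤ _ := Finset.sum_le_sum fun j _ => h3 (e j)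
  have hk2 : k = 1 ∨ k = 2 := by omega
  rcases hk2 with rfl | rfl
  · -- a loop
    have h1 : S.tgt (e 0) = S.src (e 0) := by
      rw [hcyl 0, hper 0]
    rw [Finset.prod_range_one, loop_lemma S hflat h1, div_self (S.a_pos _).ne']
  · -- a two-cycle
    by_contra hne
    rw [Finset.prod_range_succ, Finset.prod_range_one] at hne
    have hef : S.tgt (e 0) = S.src (e 1) := hcyl 0
    have hfe : S.tgt (e 1) = S.src (e 0) := by
      rw [hcyl 1]
      exact congrArg S.src (hper 0)
    have hij : S.src (e 0) ≠ S.src (e 1) := by
      intro h
      have := hinj 0 1 (by norm_num) (by norm_num) h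
      norm_num at this
    obtain ⟨hs1, hs2⟩ := two_cycle_lemma S hflat hef hfe hne
    generalize e 0 = x at *
    generalize e 1 = y at *
    have hax := S.a_pos x
    have hbx := S.b_pos x
    have hay := S.a_pos y
    have hby := S.b_pos y
    -- further saddle connections
    have hexT : ∀ w, S.a w < 1 → ∃ w', w' ≠ w ∧ S.src w' = S.src w := by
      intro w hw
      by_contra hcon
      push Not at hcon
      have h1 : univ.filter (fun z => S.src z = S.src w) = {w} := by
        ext z
        simp only [Finset.mem_filter, Finset.mem_univ, true_and, Finset.mem_singleton]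
        constructor
        · intro hz
          by_contra hzw
          exact hcon z hzw hz
        · rintro rfl; rfl
      have h2 := S.sum_a (S.src w)
      rw [h1, Finset.sum_singleton] at h2
      linarith
    have hexB : ∀ w, S.b w < 1 → ∃ w', w' ≠ w ∧ S.tgt w' = S.tgt w := by
      intro w hw
      by_contra hcon
      push Not at hcon
      have h1 : univ.filter (fun z => S.tgt z = S.tgt w) = {w} := by
        ext z
        simp only [Finset.mem_filter, Finset.mem_univ, true_and, Finset.mem_singleton]
        constructor
        · intro hz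
          by_contra hzw
          exact hcon z hzw hz
        · rintro rfl; rfl
      have h2 := S.sum_b (S.tgt w)
      rw [h1, Finset.sum_singleton] at h2
      linarith
    obtain ⟨x', hx'x, hx's⟩ := hexT x (by linarith)
    obtain ⟨y', hy'y, hy's⟩ := hexT y (by linarith)
    have hxy : x ≠ y := fun h => hij (by rw [h])
    have hx'y : x' ≠ y := fun h => hij (by rw [← hx's, h])
    have hx'y' : x' ≠ y' := fun h => hij (by rw [← hx's, h, hy's])
    have hxy' : x ≠ y' := fun h => hij (by rw [h, hy's])
    have huniv : (univ : Finset E) = {x, x', y, y'} := by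
      symm
      apply Finset.eq_univ_of_card
      apply le_antisymm (Finset.card_le_univ _)
      have : ({x, x', y, y'} : Finset E).card = 4 := by
        rw [Finset.card_insert_of_notMem, Finset.card_insert_of_notMem, Finset.card_pair hy'y.symm]
        · simp [hx'y, hx'y']
        · simp [hx'x.symm, hxy, hxy']
      omega
    have hall : ∀ w : E, w = x ∨ w = x' ∨ w = y ∨ w = y' := by
      intro w
      have : w ∈ (univ : Finset E) := Finset.mem_univ w
      rw [huniv] at this
      simpa using this
    obtain ⟨u, hux, hut⟩ := hexB x (by linarith)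
    obtain ⟨v, hvy, hvt⟩ := hexB y (by linarith)
    have hij' : S.tgt x ≠ S.tgt y := by rw [hef, hfe]; exact hij.symm
    have huy : u ≠ y := fun h => hij' (by rw [← hut, h])
    have hvx : v ≠ x := fun h => hij' (by rw [← hvt, h])
    have huv : u ≠ v := fun h => hij' (by rw [← hut, h, hvt])
    have hu : u = x' ∨ u = y' := by
      rcases hall u with h | h | h | h
      · exact (hux h).elim
      · exact Or.inl h
      · exact (huy h).elim
      · exact Or.inr h
    have hv : v = x' ∨ v = y' := by
      rcases hall v with h | h | h | h
      · exact (hvx h).elim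
      · exact Or.inl h
      · exact (hvy h).elim
      · exact Or.inr h
    rcases hu with rfl | rfl
    · -- `u = x'`: top circle and bottom circle both consist of `x, x'`
      have htop : S.top x = u := by
        have h1 : S.src (S.top x) = S.src x := src_top S x
        have h2 : S.top x ≠ x := by
          intro h
          have h3 := (S.src_eq_iff x u).1 hx's.symm
          exact hux.symm (h3.eq_of_left h)
        rcases hall (S.top x) with h | h | h | h
        · exact (h2 h).elim
        · exact h
        · rw [h] at h1; exact (hij h1.symm).elim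
        · rw [h, hy's] at h1; exact (hij h1.symm).elim
      have hbot : S.bot x = u := by
        have h1 : S.tgt (S.bot x) = S.tgt x := tgt_bot S x
        have h2 : S.bot x ≠ x := by
          intro h
          have h3 := (S.tgt_eq_iff x u).1 hut.symm
          exact hux.symm (h3.eq_of_left h)
        have hvy' : v = y' := by
          rcases hv with h | h
          · exact (huv h.symm).elim
          · exact h
        rcases hall (S.bot x) with h | h | h | h
        · exact (h2 h).elim
        · exact h
        · rw [h] at h1; exact (hij' h1.symm).elim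
        · rw [h, ← hvy', hvt] at h1; exact (hij' h1.symm).elim
      exact hcone x (htop.trans hbot.symm)
    · -- `u = y'`, `v = x'`
      have hvx' : v = x' := by
        rcases hv with h | h
        · exact h
        · exact (huv h.symm).elim
      subst hvx'
      have hl1 : S.b v = S.a v := loop_lemma S hflat (by rw [hvt, hfe, hx's])
      have hl2 : S.b u = S.a u := loop_lemma S hflat (by rw [hut, hef, hy's])
      have hsa1 : S.a x + S.a v = 1 := by
        rw [← S.sum_a (S.src x)]
        have : univ.filter (fun z => S.src z = S.src x) = {x, v} := by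
          ext z
          simp only [Finset.mem_filter, Finset.mem_univ, true_and, Finset.mem_insert,
            Finset.mem_singleton]
          constructor
          · intro hz
            rcases hall z with h | h | h | h
            · exact Or.inl h
            · exact Or.inr h
            · rw [h] at hz; exact (hij hz.symm).elim
            · rw [h, hy's] at hz; exact (hij hz.symm).elim
          · rintro (rfl | rfl)
            · rfl
            · exact hx's
        rw [this, Finset.sum_pair hx'x.symm]
      have hsa2 : S.a y + S.a u = 1 := by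
        rw [← S.sum_a (S.src y)]
        have : univ.filter (fun z => S.src z = S.src y) = {y, u} := by
          ext z
          simp only [Finset.mem_filter, Finset.mem_univ, true_and, Finset.mem_insert,
            Finset.mem_singleton]
          constructor
          · intro hz
            rcases hall z with h | h | h | h
            · rw [h] at hz; exact (hij hz).elim
            · rw [h, hx's] at hz; exact (hij hz).elim
            · exact Or.inl h
            · exact Or.inr h
          · rintro (rfl | rfl)
            · rfl
            · exact hy's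
        rw [this, Finset.sum_pair hy'y.symm]
      have hsb1 : S.b y + S.b v = 1 := by
        rw [← S.sum_b (S.tgt y)]
        have : univ.filter (fun z => S.tgt z = S.tgt y) = {y, v} := by
          ext z
          simp only [Finset.mem_filter, Finset.mem_univ, true_and, Finset.mem_insert,
            Finset.mem_singleton]
          constructor
          · intro hz
            rcases hall z with h | h | h | h
            · rw [h] at hz; exact (hij' hz).elim
            · exact Or.inr h
            · exact Or.inl h
            · rw [h, hut] at hz; exact (hij' hz).elim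
          · rintro (rfl | rfl)
            · rfl
            · exact hvt
        rw [this, Finset.sum_pair hvy.symm]
      have hsb2 : S.b x + S.b u = 1 := by
        rw [← S.sum_b (S.tgt x)]
        have : univ.filter (fun z => S.tgt z = S.tgt x) = {x, u} := by
          ext z
          simp only [Finset.mem_filter, Finset.mem_univ, true_and, Finset.mem_insert,
            Finset.mem_singleton]
          constructor
          · intro hz
            rcases hall z with h | h | h | h
            · exact Or.inl h
            · rw [h, hvt] at hz; exact (hij' hz.symm).elim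
            · rw [h] at hz; exact (hij' hz.symm).elim
            · exact Or.inr h
          · rintro (rfl | rfl)
            · rfl
            · exact hut
        rw [this, Finset.sum_pair hux.symm]
      apply hne
      have e1 : S.b y = S.a x := by linarith
      have e2 : S.b x = S.a y := by linarith
      rw [e1, e2]
      field_simp

end Pool.Agent.DilSurf
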