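import Pool.Agent.Lib.MP_28dde8_gt.Defs

/-! # From cycles to a rescaling (MP_28dde8_gt) -/

open Finset
open scoped BigOperators Classical

noncomputable section

namespace Pool.Agent.DilSurf

variable {I E : Type} [Fintype I] [Fintype E]

/-- The transfer operator. -/
def LL (S : CylinderSurface I E) : (I → ℝ) →ₗ[ℝ] (I → ℝ) where
  toFun v i := ∑ e with S.src e = i, v (S.tgt e) * S.b e
  map_add' v w := by
    funext i
    simp only [Pi.add_apply]
    rw [← Finset.sum_add_distrib]
    exact Finset.sum_congr rfl fun e _ => by ring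
  map_smul' r v := by
    funext i
    simp only [Pi.smul_apply, smul_eq_mul, RingHom.id_apply]
    rw [Finset.mul_sum]
    exact Finset.sum_congr rfl fun e _ => by ring

theorem LL_apply (S : CylinderSurface I E) (v : I → ℝ) (i : I) :
    LL S v i = ∑ e with S.src e = i, v (S.tgt e) * S.b e := rfl

theorem sum_src (S : CylinderSurface I E) (f : E → ℝ) :
    ∑ i, ∑ e with S.src e = i, f e = ∑ e, f e :=
  Finset.sum_fiberwise _ _ _

theorem sum_tgt (S : CylinderSurface I E) (f : E → ℝ) :
    ∑ i, ∑ e with S.tgt e = i, f e = ∑ e, f e :=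
  Finset.sum_fiberwise _ _ _

theorem sum_tgt_b (S : CylinderSurface I E) (v : I → ℝ) :
    ∑ e, v (S.tgt e) * S.b e = ∑ i, v i := by
  rw [← sum_tgt S]
  refine Finset.sum_congr rfl fun i _ => ?_
  have : ∀ e ∈ univ.filter (fun e => S.tgt e = i), v (S.tgt e) * S.b e = v i * S.b e := by
    intro e he
    rw [(Finset.mem_filter.1 he).2]
  rw [Finset.sum_congr rfl this, ← Finset.mul_sum, S.sum_b, mul_one]

theorem sum_LL (S : CylinderSurface I E) (v : I → ℝ) : ∑ i, LL S v i = ∑ i, v i := by
  simp only [LL_apply]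
  rw [sum_src S, sum_tgt_b]

/-- existence of a stationary vector. -/
theorem exists_stat (S : CylinderSurface I E) [Nonempty I] :
    ∃ c : I → ℝ, (∀ i, 0 ≤ c i) ∧ (∃ i, 0 < c i) ∧
      ∀ i, ∑ e with S.src e = i, c (S.tgt e) * S.b e = c i := by
  have hninj : ¬ Function.Injective (LL S - LinearMap.id : (I → ℝ) →ₗ[ℝ] (I → ℝ)) := by
    intro hinj
    have hsurj := LinearMap.injective_iff_surjective.1 hinj
    obtain ⟨v, hv⟩ := hsurj (fun _ => 1)
    have h1 : ∑ i, (LL S - LinearMap.id : (I → ℝ) →ₗ[ℝ] (I → ℝ)) v i = ∑ _i : I, (1:ℝ) := by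
      rw [hv]
    simp only [LinearMap.sub_apply, LinearMap.id_apply, Pi.sub_apply, Finset.sum_sub_distrib,
      sum_LL, sub_self, Finset.sum_const, nsmul_eq_mul, mul_one] at h1
    have : (0:ℝ) < (Finset.univ : Finset I).card := by
      exact_mod_cast Finset.card_pos.2 Finset.univ_nonempty
    linarith
  rw [injective_iff_map_eq_zero] at hninj
  push Not at hninj
  obtain ⟨v, hv, hv0⟩ := hninj
  have hfix : LL S v = v := by
    have : LL S v - v = 0 := by simpa using hv
    exact sub_eq_zero.1 this
  refine ⟨fun i => |v i|, fun i => abs_nonneg _, ?_, ?_⟩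
  · by_contra hcon
    push Not at hcon
    apply hv0
    funext i
    exact abs_nonpos_iff.1 (hcon i)
  · have hle : ∀ i, |v i| ≤ LL S (fun i => |v i|) i := by
      intro i
      have h1 : v i = LL S v i := by rw [hfix]
      calc |v i| = |LL S v i| := by rw [← h1]
        _ ≤ _ := by
          simp only [LL_apply]
          refine (Finset.abs_sum_le_sum_abs _ _).trans ?_
          refine Finset.sum_le_sum fun e _ => ?_
          rw [abs_mul, abs_of_pos (S.b_pos e)]
    have hsum := sum_LL S (fun i => |v i|)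
    have heq : ∀ i ∈ (univ : Finset I), |v i| = LL S (fun i => |v i|) i :=
      (Finset.sum_eq_sum_iff_of_le fun i _ => hle i).1 hsum.symm
    intro i
    exact (heq i (Finset.mem_univ i)).symm

/-- a cylinder from which a `P` cylinder is reached in `n` steps. -/
def Reach (S : CylinderSurface I E) (P : I → Prop) : ℕ → I → Prop
  | 0, i => P i
  | n + 1, i => ∃ e, S.src e = i ∧ Reach S P n (S.tgt e)

/-- A directed cycle of saddle connections through pairwise different cylinders. -/
def IsSimpleCycle (S : CylinderSurface I E) (k : ℕ) (e : ℕ → E) : Prop :=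
  0 < k ∧ (∀ j, e (j + k) = e j) ∧ (∀ j, S.tgt (e j) = S.src (e (j + 1))) ∧
    ∀ i j, i < k → j < k → S.src (e i) = S.src (e j) → i = j

/-- If every simple cycle has trivial holonomy then the surface is a translation surface. -/
theorem translation_of_cycles (S : CylinderSurface I E)
    (hcyc : ∀ k e, IsSimpleCycle S k e → ∏ j ∈ range k, S.b (e j) / S.a (e j) = 1) :
    IsTranslation S := by
  rcases isEmpty_or_nonempty I with hI | hI
  · exact ⟨fun _ => 1, fun i => (hI.false i).elim, fun e => (hI.false (S.src e)).elim⟩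
  obtain ⟨c, hc0, ⟨i₀, hi₀⟩, hst⟩ := exists_stat S
  -- strict cylinders
  let strict : I → Prop := fun i => 0 < c i ∧ ∃ e, S.src e = i ∧ c i * S.a e < c (S.tgt e) * S.b e
  have hsum0 : ∀ i, ∑ e with S.src e = i, (c (S.tgt e) * S.b e - c i * S.a e) = 0 := by
    intro i
    rw [Finset.sum_sub_distrib, hst, ← Finset.mul_sum, S.sum_a, mul_one, sub_self]
  have hnon : ∀ i, 0 < c i → ¬ strict i → ∀ e, S.src e = i →
      c (S.tgt e) * S.b e = c i * S.a e := by
    intro i hi hns e he
    have hle : ∀ e ∈ univ.filter (fun e => S.src e = i), c (S.tgt e) * S.b e - c i * S.a e ≤ 0 := by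
      intro e he
      by_contra hcon
      push Not at hcon
      exact hns ⟨hi, e, (Finset.mem_filter.1 he).2, by linarith⟩
    have := (Finset.sum_eq_zero_iff_of_nonpos hle).1 (hsum0 i) e (by simp [he])
    linarith
  let R : ℕ → I → Prop := Reach S strict
  have hR0 : ∀ i, R 0 i ↔ strict i := fun i => Iff.rfl
  have hRs : ∀ n i, R (n + 1) i ↔ ∃ e, S.src e = i ∧ R n (S.tgt e) := fun n i => Iff.rfl
  obtain ⟨Z, hZdef⟩ : ∃ Z : Set I, ∀ i, i ∈ Z ↔ 0 < c i ∧ ∀ n, ¬ R n i :=
    ⟨{i | 0 < c i ∧ ∀ n, ¬ R n i}, fun i => Iff.rfl⟩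
  have hZout : ∀ e, S.src e ∈ Z → S.tgt e ∈ Z ∧ c (S.tgt e) * S.b e = c (S.src e) * S.a e := by
    intro e he
    rw [hZdef] at he
    have h1 := hnon (S.src e) he.1 (fun h => he.2 0 ((hR0 _).2 h)) e rfl
    refine ⟨(hZdef _).2 ⟨?_, ?_⟩, h1⟩
    · have h2 : 0 < c (S.tgt e) * S.b e := by
        rw [h1]; exact mul_pos he.1 (S.a_pos e)
      exact pos_of_mul_pos_left h2 (S.b_pos e).le
    · intro n hn
      exact he.2 (n + 1) ((hRs n _).2 ⟨e, rfl, hn⟩)
  have hZin : ∀ e, S.tgt e ∈ Z → S.src e ∈ Z := by
    -- compare the two sums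
    have e1 : ∑ i : I, (if i ∈ Z then c i else (0:ℝ)) =
        ∑ e : E, (if S.src e ∈ Z then c (S.src e) * S.a e else (0:ℝ)) := by
      rw [← sum_src S]
      refine Finset.sum_congr rfl fun i _ => ?_
      have : ∀ e ∈ univ.filter (fun e => S.src e = i),
          (if S.src e ∈ Z then c (S.src e) * S.a e else (0:ℝ)) =
          (if i ∈ Z then c i else (0:ℝ)) * S.a e := by
        intro e he
        rw [(Finset.mem_filter.1 he).2]
        split_ifs <;> ring
      rw [Finset.sum_congr rfl this, ← Finset.mul_sum, S.sum_a, mul_one]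
    have e2 : ∑ i : I, (if i ∈ Z then c i else (0:ℝ)) =
        ∑ e : E, (if S.tgt e ∈ Z then c (S.tgt e) * S.b e else (0:ℝ)) := by
      rw [← sum_tgt S]
      refine Finset.sum_congr rfl fun i _ => ?_
      have : ∀ e ∈ univ.filter (fun e => S.tgt e = i),
          (if S.tgt e ∈ Z then c (S.tgt e) * S.b e else (0:ℝ)) =
          (if i ∈ Z then c i else (0:ℝ)) * S.b e := by
        intro e he
        rw [(Finset.mem_filter.1 he).2]
        split_ifs <;> ring
      rw [Finset.sum_congr rfl this, ← Finset.mul_sum, S.sum_b, mul_one]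
    have hle : ∀ e ∈ (univ : Finset E), (if S.src e ∈ Z then c (S.src e) * S.a e else (0:ℝ)) ≤
        (if S.tgt e ∈ Z then c (S.tgt e) * S.b e else (0:ℝ)) := by
      intro e _
      by_cases h : S.src e ∈ Z
      · obtain ⟨h1, h2⟩ := hZout e h
        simp [h, h1, h2]
      · rw [if_neg h]
        split_ifs
        · exact mul_nonneg (hc0 _) (S.b_pos e).le
        · exact le_rfl
    have heq := (Finset.sum_eq_sum_iff_of_le hle).1 (by rw [← e1, ← e2])
    intro e he
    by_contra hcon
    have h1 := heq e (Finset.mem_univ e)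
    rw [if_neg hcon, if_pos he] at h1
    have h2 : 0 < c (S.tgt e) * S.b e := mul_pos ((hZdef _).1 he).1 (S.b_pos e)
    linarith
  rcases Z.eq_empty_or_nonempty with hZ | hZ
  swap
  · have huniv := S.connected Z hZ fun e => ⟨fun h => (hZout e h).1, fun h => hZin e h⟩
    refine ⟨c, fun i => ?_, fun e => ?_⟩
    · have : i ∈ Z := by rw [huniv]; exact Set.mem_univ i
      exact ((hZdef _).1 this).1
    · have : S.src e ∈ Z := by rw [huniv]; exact Set.mem_univ _
      exact (hZout e this).2.symm
  -- every cylinder with positive weight reaches a strict one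
  exfalso
  have hreach : ∀ i, 0 < c i → ∃ n, R n i := by
    intro i hi
    by_contra hcon
    push Not at hcon
    have : i ∈ Z := (hZdef _).2 ⟨hi, hcon⟩
    rw [hZ] at this
    exact this
  let d : I → ℕ := fun i => sInf {n | R n i}
  have hchoice : ∀ i, ∃ e, S.src e = i ∧ (0 < c i →
      (c i * S.a e ≤ c (S.tgt e) * S.b e) ∧ (strict i → c i * S.a e < c (S.tgt e) * S.b e) ∧
      (¬ strict i → d (S.tgt e) < d i)) := by
    intro i
    by_cases hi : 0 < c i
    · by_cases hs : strict i
      · obtain ⟨_, e, he, hlt⟩ := hs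
        exact ⟨e, he, fun _ => ⟨hlt.le, fun _ => hlt, fun h => (h ⟨hi, e, he, hlt⟩).elim⟩⟩
      · have hspec : R (d i) i := Nat.sInf_mem (s := {n | R n i}) (hreach i hi)
        rcases hn : d i with _ | n
        · rw [hn] at hspec
          exact (hs ((hR0 i).1 hspec)).elim
        · rw [hn] at hspec
          obtain ⟨e, he, hRe⟩ := (hRs n i).1 hspec
          refine ⟨e, he, fun _ => ⟨(hnon i hi hs e he).ge, fun h => (hs h).elim, fun _ => ?_⟩⟩
          exact Nat.lt_succ_of_le (Nat.sInf_le (s := {m | R m (S.tgt e)}) hRe)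
    · have hne : (univ.filter (fun e => S.src e = i)).Nonempty := by
        by_contra hcon
        rw [Finset.not_nonempty_iff_eq_empty] at hcon
        have := S.sum_a i
        rw [hcon] at this
        simp at this
      obtain ⟨e, he⟩ := hne
      exact ⟨e, (Finset.mem_filter.1 he).2, fun h => (hi h).elim⟩
  choose σ hσ hσ' using hchoice
  let τ : I → I := fun i => S.tgt (σ i)
  have hτpos : ∀ i, 0 < c i → 0 < c (τ i) := by
    intro i hi
    have h1 := (hσ' i hi).1
    have h2 : 0 < c (S.tgt (σ i)) * S.b (σ i) := lt_of_lt_of_le (mul_pos hi (S.a_pos _)) h1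
    exact pos_of_mul_pos_left h2 (S.b_pos _).le
  have hτit : ∀ n i, 0 < c i → 0 < c (τ^[n] i) := by
    intro n
    induction n with
    | zero => intro i hi; exact hi
    | succ n ih => intro i hi; rw [Function.iterate_succ_apply']; exact hτpos _ (ih i hi)
  -- a periodic point
  obtain ⟨m, n, hmn, hmn'⟩ := Finite.exists_ne_map_eq_of_infinite (fun n : ℕ => τ^[n] i₀)
  obtain ⟨i₁, hi₁, hper⟩ : ∃ i₁, 0 < c i₁ ∧ i₁ ∈ Function.periodicPts τ := by
    wlog hlt : m < n generalizing m n
    · exact this n m hmn.symm hmn'.symm (lt_of_le_of_ne (not_lt.1 hlt) hmn.symm)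
    refine ⟨τ^[m] i₀, hτit m i₀ hi₀, Function.mk_mem_periodicPts (n := n - m) (by omega) ?_⟩
    change τ^[n - m] (τ^[m] i₀) = τ^[m] i₀
    rw [← Function.iterate_add_apply, Nat.sub_add_cancel hlt.le]
    exact hmn'.symm
  set k := Function.minimalPeriod τ i₁ with hk
  have hkpos : 0 < k := Function.minimalPeriod_pos_of_mem_periodicPts hper
  let x : ℕ → I := fun j => τ^[j] i₁
  have hx1 : ∀ j, x (j + 1) = τ (x j) := fun j => Function.iterate_succ_apply' τ j i₁
  have hxk : ∀ j, x (j + k) = x j := by
    intro j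
    simp only [x]
    rw [Function.iterate_add_apply, hk, Function.iterate_minimalPeriod]
  have hxpos : ∀ j, 0 < c (x j) := fun j => hτit j i₁ hi₁
  have hcycle : IsSimpleCycle S k (fun j => σ (x j)) := by
    refine ⟨hkpos, fun j => ?_, fun j => ?_, fun i j hi hj hij => ?_⟩
    · simp only [hxk]
    · simp only [hσ]
      exact (hx1 j).symm
    · simp only [hσ] at hij
      exact Function.iterate_injOn_Iio_minimalPeriod hi hj hij
  have hprod := hcyc k _ hcycle
  -- some strict point on the cycle
  obtain ⟨j₀, hj₀⟩ : ∃ j, strict (x j) := by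
    by_contra hcon
    push Not at hcon
    have hdec : ∀ j, d (x (j + 1)) < d (x j) := by
      intro j
      rw [hx1]
      exact (hσ' (x j) (hxpos j)).2.2 (hcon j)
    have : ∀ j, d (x j) + j ≤ d (x 0) := by
      intro j
      induction j with
      | zero => simp
      | succ j ih => have := hdec j; omega
    have := this (d (x 0) + 1)
    omega
  have hxmod : ∀ j, x (j % k) = x j := by
    intro j
    have : ∀ m j, x (j + m * k) = x j := by
      intro m
      induction m with
      | zero => intro j; simp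
      | succ m ih => intro j; rw [Nat.succ_mul, ← add_assoc, hxk, ih]
    conv_rhs => rw [← Nat.mod_add_div j k, mul_comm, this]
  have hj₁ : strict (x (j₀ % k)) := by rw [hxmod]; exact hj₀
  have hj₁k : j₀ % k < k := Nat.mod_lt _ hkpos
  -- telescoping
  have htel : ∏ j ∈ range k, c (x j) / c (x (j + 1)) = 1 := by
    have : ∀ n, ∏ j ∈ range n, c (x j) / c (x (j + 1)) = c (x 0) / c (x n) := by
      intro n
      induction n with
      | zero => simp [(hxpos 0).ne']
      | succ n ih =>
        rw [Finset.prod_range_succ, ih]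
        have := (hxpos n).ne'
        field_simp
    rw [this, show x k = x 0 by simpa using hxk 0, div_self (hxpos 0).ne']
  have hlt : ∏ j ∈ range k, c (x j) / c (x (j + 1)) <
      ∏ j ∈ range k, S.b (σ (x j)) / S.a (σ (x j)) := by
    apply Finset.prod_lt_prod
    · intro j _
      exact div_pos (hxpos j) (hxpos (j + 1))
    · intro j _
      rw [div_le_div_iff₀ (hxpos (j + 1)) (S.a_pos _), hx1, mul_comm (S.b _)]
      exact (hσ' (x j) (hxpos j)).1
    · refine ⟨j₀ % k, Finset.mem_range.2 hj₁k, ?_⟩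
      rw [div_lt_div_iff₀ (hxpos _) (S.a_pos _), hx1, mul_comm (S.b _)]
      exact (hσ' _ (hxpos _)).2.1 hj₁
  rw [htel, hprod] at hlt
  exact lt_irrefl _ hlt

end Pool.Agent.DilSurf
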